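import Pool.Agent.W2helper5.KA.Main
import Pool.Agent.W2helper15.KA.Orb
import Pool.Agent.W2helper24.KA.Conv
import Pool.Agent.W2helper51.KA.Grp
import Pool.Agent.W2helper52.KA.Per
import Pool.Agent.W2helper71.KA.Loop
import Pool.Agent.W2helper73.KA.Pwf
import Pool.Agent.W2helper77.KA.Pwg
import Pool.Agent.W2helper81.KA.Ssq
import Pool.Agent.W2helper97.KA.Ari

/-!
# MP_0d5e35_al: the exponent divides the dimension for all abelian extensions

The abelian extensions `1 → k^Γ → H → kF → 1` are the Hopf algebras `H = k^Γ #_{σ,τ} kF`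
(bicrossed products).
-/

set_option autoImplicit false

namespace Pool.Agent.Results.MP_0d5e35_al.AbelianExtensions

open TensorProduct

/-- A matched pair of groups `(F, Γ)` and a compatible pair of normalized 2-cocycles `σ, τ` with
values in `k^×`. Here `l s x = s ▷ x` is a left action of the group `Γ` on the set `F`,
`r s x = s ◁ x` is a right action of the group `F` on the set `Γ`, `σ s x y = σ_s(x, y)` and
`τ x s t = τ_x(s, t)`. -/
structure MatchedPairWithCocycles (k F Γ : Type) [Field k] [Group F] [Group Γ] where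
  l : Γ → F → F
  r : Γ → F → Γ
  σ : Γ → F → F → k
  τ : F → Γ → Γ → k
  /-- `▷` is an action -/
  l_one : ∀ x, l 1 x = x
  l_mul : ∀ s t x, l (s * t) x = l s (l t x)
  /-- `◁` is an action -/
  r_one : ∀ s, r s 1 = s
  r_mul : ∀ s x y, r s (x * y) = r (r s x) y
  /-- `s ▷ (x y) = (s ▷ x) ((s ◁ x) ▷ y)` -/
  l_xy : ∀ s x y, l s (x * y) = l s x * l (r s x) y
  /-- `(s t) ◁ x = (s ◁ (t ▷ x)) (t ◁ x)` -/
  r_st : ∀ s t x, r (s * t) x = r s (l t x) * r t x
  /-- the cocycles have values in `k^×` -/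
  σ_ne : ∀ s x y, σ s x y ≠ 0
  τ_ne : ∀ x s t, τ x s t ≠ 0
  /-- the cocycles are normalized -/
  σ_one₀ : ∀ x y, σ 1 x y = 1
  σ_one₁ : ∀ s y, σ s 1 y = 1
  σ_one₂ : ∀ s x, σ s x 1 = 1
  τ_one₀ : ∀ s t, τ 1 s t = 1
  τ_one₁ : ∀ x t, τ x 1 t = 1
  τ_one₂ : ∀ x s, τ x s 1 = 1
  /-- `σ` is a cocycle: the multiplication of `k^Γ #_{σ,τ} kF` is associative -/
  coc₁ : ∀ s x y z, σ (r s x) y z * σ s x (y * z) = σ s x y * σ s (x * y) z
  /-- `τ` is a cocycle: the comultiplication of `k^Γ #_{σ,τ} kF` is coassociative -/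
  coc₂ : ∀ x s t u, τ x (s * t) u * τ (l u x) s t = τ x s (t * u) * τ x t u
  /-- the compatibility of `σ` and `τ`: the comultiplication is multiplicative -/
  coc₃ : ∀ s t x y, σ (s * t) x y * τ (x * y) s t =
    σ s (l t x) (l (r t x) y) * σ t x y * τ x s t * τ y (r s (l t x)) (r t x)

/-- The Hopf algebra `H` is the abelian extension `k^Γ #_{σ,τ} kF`: it has a basis
`b (s, x) = e_s # x` (`s ∈ Γ`, `x ∈ F`), and

`(e_s # x) (e_t # y) = δ_{s ◁ x, t} σ_s(x, y) (e_s # x y)`, `1 = ∑_s e_s # 1`,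

`Δ (e_s # x) = ∑_t τ_x(s t⁻¹, t) (e_{s t⁻¹} # (t ▷ x)) ⊗ (e_t # x)`, `ε (e_s # x) = δ_{s, 1}`. -/
structure IsAbelianExtension {k F Γ : Type} [Field k] [Group F] [Group Γ] [Fintype F] [Fintype Γ]
    [DecidableEq F] [DecidableEq Γ] (D : MatchedPairWithCocycles k F Γ) (H : Type) [Ring H]
    [HopfAlgebra k H] (b : Module.Basis (Γ × F) k H) : Prop where
  mul : ∀ s x t y, b (s, x) * b (t, y) = if D.r s x = t then D.σ s x y • b (s, x * y) else 0
  one : (1 : H) = ∑ s, b (s, 1)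
  comul : ∀ s x, Coalgebra.comul (R := k) (b (s, x)) =
    ∑ t, D.τ x (s * t⁻¹) t • (b (s * t⁻¹, D.l t x) ⊗ₜ[k] b (t, x))
  counit : ∀ s x, Coalgebra.counit (R := k) (b (s, x)) = if s = 1 then 1 else 0

/-- Kashina's conjecture holds for all abelian extensions `H = k^Γ #_{σ,τ} kF` of finite groups over
any field: the exponent of `H` exists and divides the dimension of `H`. (The conclusion is word for
word the one of the frozen statement `S00715`.) -/
theorem result {K F Γ : Type} [Field K] [Group F] [Group Γ] [Fintype F] [Fintype Γ]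
    [DecidableEq F] [DecidableEq Γ] (D : MatchedPairWithCocycles K F Γ) (H : Type) [Ring H]
    [HopfAlgebra K H] (b : Module.Basis (Γ × F) K H) (hH : IsAbelianExtension D H b)
    (Sinv : H →ₗ[K] H)
    (h1 : Sinv ∘ₗ HopfAlgebra.antipode (R := K) (A := H) = LinearMap.id)
    (h2 : HopfAlgebra.antipode (R := K) (A := H) ∘ₗ Sinv = LinearMap.id) :
    ∃ n : ℕ, 0 < n ∧
      (fun T : H →ₗ[K] H => LinearMap.mul' K H ∘ₗ
          TensorProduct.map LinearMap.id (Sinv ∘ₗ Sinv ∘ₗ T) ∘ₗ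
          Coalgebra.comul (R := K) (A := H))^[n]
        (Algebra.linearMap K H ∘ₗ Coalgebra.counit (R := K) (A := H))
        = Algebra.linearMap K H ∘ₗ Coalgebra.counit (R := K) (A := H) ∧
      (∀ m : ℕ, 0 < m →
        (fun T : H →ₗ[K] H => LinearMap.mul' K H ∘ₗ
            TensorProduct.map LinearMap.id (Sinv ∘ₗ Sinv ∘ₗ T) ∘ₗ
            Coalgebra.comul (R := K) (A := H))^[m]
          (Algebra.linearMap K H ∘ₗ Coalgebra.counit (R := K) (A := H))
          = Algebra.linearMap K H ∘ₗ Coalgebra.counit (R := K) (A := H) →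
        n ≤ m) ∧
      n ∣ Module.finrank K H :=
  Pool.Agent.W2helper5.KA.main Pool.Agent.W2helper51.KA.GRP Pool.Agent.W2helper15.KA.ORB
    Pool.Agent.W2helper71.KA.LOOP Pool.Agent.W2helper77.KA.PWG Pool.Agent.W2helper73.KA.PWF
    Pool.Agent.W2helper52.KA.PER Pool.Agent.W2helper97.KA.ARI Pool.Agent.W2helper24.KA.CONV
    Pool.Agent.W2helper81.KA.SSQ
    { l := D.l, r := D.r, σ := D.σ, τ := D.τ, l_one := D.l_one, l_mul := D.l_mul
      r_one := D.r_one, r_mul := D.r_mul, l_xy := D.l_xy, r_st := D.r_st, σ_ne := D.σ_ne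
      τ_ne := D.τ_ne, σ_one₀ := D.σ_one₀, σ_one₁ := D.σ_one₁, σ_one₂ := D.σ_one₂
      τ_one₀ := D.τ_one₀, τ_one₁ := D.τ_one₁, τ_one₂ := D.τ_one₂, coc₁ := D.coc₁
      coc₂ := D.coc₂, coc₃ := D.coc₃ } b
    { mul := hH.mul, one := hH.one, comul := hH.comul, counit := hH.counit } Sinv h1 h2

end Pool.Agent.Results.MP_0d5e35_al.AbelianExtensions
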