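import Pool.Agent.W2helper5.KA.Main2
import Pool.Agent.W2helper65.KA2.Cyc
import Pool.Agent.W2helper79.KA2.Con3
import Pool.Agent.W2helper71.KA2.Idx
import Pool.Agent.W2helper35.KA.Num
import Pool.Agent.W2helper52.KA2.Dbl

/-!
# MP_0d5e35_al: Kashina's conjecture for group-theoretical Hopf algebras

Let `H` be a semisimple Hopf algebra over `ℂ` which is group-theoretical, that is `Rep H` is one of the
fusion categories `C(G, ω, A, α)`. It is known that `|G| = dim H`, that there is a subgroup `B` with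
`G = A B` on which `ω` is cohomologically trivial, as it is on `A`, and that `exp H` is the order of the
Drinfeld element `v = ∑_g e_g g` of the twisted double `D^ω(G)`. We show that this order divides
`|G|`.
-/

set_option autoImplicit false

namespace Pool.Agent.Results.MP_0d5e35_al.GroupTheoretical

/-- `ω` is a normalized 3-cocycle of the group `G` with values in the abelian group `M`. -/
structure IsNormalizedCocycle {G M : Type} [Group G] [CommGroup M] (ω : G → G → G → M) : Prop where
  coc : ∀ a b c d, ω b c d * ω a (b * c) d * ω a b c = ω (a * b) c d * ω a b (c * d)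
  one₀ : ∀ b c, ω 1 b c = 1
  one₁ : ∀ a c, ω a 1 c = 1
  one₂ : ∀ a b, ω a b 1 = 1

/-- The restriction of `ω` to the subgroup `A` is the coboundary of some 2-cochain `α` of `A`. -/
def IsTrivialOn {G M : Type} [Group G] [CommGroup M] (ω : G → G → G → M) (A : Subgroup G) : Prop :=
  ∃ α : A → A → M, ∀ a b c : A, ω a b c = α b c * α a (b * c) / (α (a * b) c * α a b)

/-- The scalar `θ_g(x, y) = ω(g, x, y) ω(x, y, (xy)⁻¹ g xy) / ω(x, x⁻¹ g x, y)`. -/
def theta {G M : Type} [Group G] [CommGroup M] (ω : G → G → G → M) (g x y : G) : M :=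
  ω g x y * ω x y ((x * y)⁻¹ * g * (x * y)) / ω x (x⁻¹ * g * x) y

/-- The algebra `E` over the field `K` is the twisted Drinfeld double `D^ω(G)` of Dijkgraaf, Pasquier
and Roche: it has a basis `b (g, x) = e_g x` (`g, x ∈ G`), and
`(e_g x) (e_h y) = δ_{x⁻¹ g x, h} θ_g(x, y) e_g (x y)`, `1 = ∑_g e_g 1`. -/
structure IsTwistedDouble {K G : Type} [Field K] [Group G] [Fintype G] [DecidableEq G]
    (ω : G → G → G → Kˣ) (E : Type) [Ring E] [Algebra K E] (b : Module.Basis (G × G) K E) :
    Prop where
  mul : ∀ g x h y, b (g, x) * b (h, y) =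
    if x⁻¹ * g * x = h then ((theta ω g x y : Kˣ) : K) • b (g, x * y) else 0
  one : (1 : E) = ∑ g, b (g, 1)

/-- Let the finite group `G` be the product `A B` of two subgroups and let `ω` be a normalized
3-cocycle of `G` whose restrictions to `A` and `B` are coboundaries. Then for every `g` in `G` the
order of `g` times the order of the restriction of `ω` to `⟨g⟩` (the order of
`∏ i, ω(g, g ^ i, g)`, `0 ≤ i < ord g`) divides `|G|`. Equivalently, the order of the Drinfeld element
`v = ∑_g e_g g` of the twisted double `D^ω(G)` divides `|G|`. -/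
theorem result {K G : Type} [Field K] [Group G] [Fintype G] [DecidableEq G]
    (ω : G → G → G → Kˣ) (hω : IsNormalizedCocycle ω) (A B : Subgroup G)
    (hAB : ∀ g : G, ∃ a ∈ A, ∃ b ∈ B, g = a * b) (hA : IsTrivialOn ω A) (hB : IsTrivialOn ω B) :
    (∀ g : G, orderOf g * orderOf (∏ i ∈ Finset.range (orderOf g), ω g (g ^ i) g) ∣
      Fintype.card G) ∧
    ∀ (E : Type) [Ring E] [Algebra K E] (b : Module.Basis (G × G) K E), IsTwistedDouble ω E b →
      orderOf (∑ g, b (g, g)) ∣ Fintype.card G := by
  have hω' : Pool.Agent.W2helper5.KA2.IsCoc ω :=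
    { coc := hω.coc, one₀ := hω.one₀, one₁ := hω.one₁, one₂ := hω.one₂ }
  have conv : ∀ A : Subgroup G, IsTrivialOn ω A → Pool.Agent.W2helper5.KA2.TrivialOn ω A := by
    classical
    rintro A ⟨α, hα⟩
    refine ⟨fun a b => if h : a ∈ A ∧ b ∈ A then α ⟨a, h.1⟩ ⟨b, h.2⟩ else 1, ?_⟩
    intro a ha b hb c hc
    have h := hα ⟨a, ha⟩ ⟨b, hb⟩ ⟨c, hc⟩
    have e1 := A.mul_mem ha hb
    have e2 := A.mul_mem hb hc
    simp only [ha, hb, hc, e1, e2, and_self, dite_true]
    exact eq_div_iff_mul_eq'.1 h
  have key : ∀ g : G, orderOf g * orderOf (Pool.Agent.W2helper5.KA2.z ω g) ∣ Fintype.card G := by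
    intro g
    have := Pool.Agent.W2helper35.KA.p_num Pool.Agent.W2helper65.KA2.CYC
      Pool.Agent.W2helper79.KA2.CON Pool.Agent.W2helper71.KA2.IDX G Kˣ ω hω' A B hAB
      (conv A hA) (conv B hB) g
    rwa [Nat.card_eq_fintype_card] at this
  refine ⟨key, ?_⟩
  intro E _ _ b hE
  exact orderOf_dvd_of_pow_eq_one (Pool.Agent.W2helper52.KA2.DBL K G ω hω' E b
    { mul := hE.mul, one := hE.one } key)

end Pool.Agent.Results.MP_0d5e35_al.GroupTheoretical
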