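import Pool.Agent.W2helper5.KA.Main3
import Pool.Agent.W2helper65.KA2.Cyc
import Pool.Agent.W2helper79.KA2.Con3
import Pool.Agent.W2helper71.KA2.Idx
import Pool.Agent.W2helper35.KA.Num
import Pool.Agent.W2helper52.KA2.Dbl
import Pool.Agent.W2helper85.KA3.Aco3
import Pool.Agent.W2helper69.KA3.Comm3
import Pool.Agent.W2helper51.KA3.Pow3
import Pool.Agent.W2helper71.KA3.Inj3

/-!
# MP_0d5e35_al: Kashina's conjecture for group-theoretical Hopf algebras

Let `H` be a semisimple Hopf algebra over `ℂ` which is group-theoretical. It is known that there are a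
finite group `G` and a 3-cocycle `ω` of `G` such that the Drinfeld double `D(H)` is a twist of the
twisted double `D^ω(G)` of `G`; so there is an isomorphism of algebras `D(H) ≅ D^ω(G)` which maps the
Drinfeld element of `D(H)` to `∑_g e_g g` or to its inverse; `|G| = dim H`; and `G = A B` for two
subgroups such that the restrictions of `ω` to `A` and to `B` are coboundaries. We show that the
exponent of every Hopf algebra `H` with these properties, over any field, divides its dimension.
-/

set_option autoImplicit false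

namespace Pool.Agent.Results.MP_0d5e35_al.GroupTheoreticalHopf

open TensorProduct

/-- `ω` is a normalized 3-cocycle of the group `G` with values in the abelian group `M`. -/
structure IsNormalizedCocycle {G M : Type} [Group G] [CommGroup M] (ω : G → G → G → M) : Prop where
  coc : ∀ a b c d, ω b c d * ω a (b * c) d * ω a b c = ω (a * b) c d * ω a b (c * d)
  one₀ : ∀ b c, ω 1 b c = 1
  one₁ : ∀ a c, ω a 1 c = 1
  one₂ : ∀ a b, ω a b 1 = 1

/-- The restriction of `ω` to the subgroup `A` is the coboundary of some 2-cochain `α` of `A`. -/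
def IsTrivialOn {G M : Type} [Group G] [CommGroup M] (ω : G → G → G → M) (A : Subgroup G) : Prop :=
  ∃ α : A → A → M, ∀ a b c : A, ω a b c = α b c * α a (b * c) / (α (a * b) c * α a b)

/-- The scalar `θ_g(x, y) = ω(g, x, y) ω(x, y, (xy)⁻¹ g xy) / ω(x, x⁻¹ g x, y)`. -/
def theta {G M : Type} [Group G] [CommGroup M] (ω : G → G → G → M) (g x y : G) : M :=
  ω g x y * ω x y ((x * y)⁻¹ * g * (x * y)) / ω x (x⁻¹ * g * x) y

/-- The algebra `E` over the field `K` is the twisted Drinfeld double `D^ω(G)` of Dijkgraaf, Pasquier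
and Roche: it has a basis `b (g, x) = e_g x` (`g, x ∈ G`), and
`(e_g x) (e_h y) = δ_{x⁻¹ g x, h} θ_g(x, y) e_g (x y)`, `1 = ∑_g e_g 1`. -/
structure IsTwistedDouble {K G : Type} [Field K] [Group G] [Fintype G] [DecidableEq G]
    (ω : G → G → G → Kˣ) (E : Type) [Ring E] [Algebra K E] (b : Module.Basis (G × G) K E) :
    Prop where
  mul : ∀ g x h y, b (g, x) * b (h, y) =
    if x⁻¹ * g * x = h then ((theta ω g x y : Kˣ) : K) • b (g, x * y) else 0
  one : (1 : E) = ∑ g, b (g, 1)

section

variable {K H : Type} [Field K] [Ring H] [HopfAlgebra K H]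

/-- The convolution product of two linear forms on `H`: `(f * g)(x) = f(x₁) g(x₂)`. -/
noncomputable def convolution (f g : H →ₗ[K] K) : H →ₗ[K] K :=
  LinearMap.mul' K K ∘ₗ TensorProduct.map f g ∘ₗ Coalgebra.comul (R := K) (A := H)

/-- The linear form `x ↦ f (p * x * q)`. -/
noncomputable def translate (f : H →ₗ[K] K) (p q : H) : H →ₗ[K] K :=
  f ∘ₗ LinearMap.mulRight K q ∘ₗ LinearMap.mulLeft K p

/-- The sum `∑ t, a t ⊗ b t ⊗ c t` is `h₁ ⊗ h₂ ⊗ h₃` (Sweedler's notation). -/
def IsSweedler (K : Type) {H : Type} [Field K] [Ring H] [HopfAlgebra K H] (h : H) {n : ℕ}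
    (a b c : Fin n → H) : Prop :=
  ∑ t, a t ⊗ₜ[K] (b t ⊗ₜ[K] c t) =
    LinearMap.lTensor H (Coalgebra.comul (R := K) (A := H)) (Coalgebra.comul (R := K) h)

/-- The algebra `D` is the Drinfeld double `D(H)` of the finite-dimensional Hopf algebra `H` with the
inverse `Sinv` of the antipode: it contains the algebra `H` (by `i`) and the algebra `H^*` with the
convolution product (by `j`), every element of `D` is in a unique way a sum of products `f h`
(`f ∈ H^*`, `h ∈ H`), and `h f = f(S⁻¹(h₃) ? h₁) h₂`. -/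
structure IsDrinfeldDouble (Sinv : H →ₗ[K] H) (D : Type) [Ring D] [Algebra K D] (i : H →ₐ[K] D)
    (j : (H →ₗ[K] K) →ₗ[K] D) : Prop where
  j_one : j (Coalgebra.counit (R := K) (A := H)) = 1
  j_mul : ∀ f g, j (convolution f g) = j f * j g
  rel : ∀ (h : H) (f : H →ₗ[K] K) (n : ℕ) (a b c : Fin n → H), IsSweedler K h a b c →
    i h * j f = ∑ t, j (translate f (Sinv (c t)) (a t)) * i (b t)
  bij : Function.Bijective (TensorProduct.lift
    ((LinearMap.mul K D).compl₁₂ j i.toLinearMap) : (H →ₗ[K] K) ⊗[K] H → D)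

/-- The Drinfeld element `u = ∑ t, S(e^t) e_t` of `D(H)`, where `e_t` is a basis of `H` and `e^t` the
dual basis of `H^*` (the antipode of `D(H)` maps the linear form `f` to `f ∘ S⁻¹`). -/
noncomputable def drinfeldElement (Sinv : H →ₗ[K] H) {D : Type} [Ring D] [Algebra K D]
    (i : H →ₐ[K] D) (j : (H →ₗ[K] K) →ₗ[K] D) {n : ℕ} (e : Module.Basis (Fin n) K H) : D :=
  ∑ t, j (e.coord t ∘ₗ Sinv) * i (e t)

end

/-- Let the finite group `G` be the product `A B` of two subgroups, and let `ω` be a normalized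
3-cocycle of `G` with values in the multiplicative group of the field `K`, whose restrictions to `A`
and `B` are coboundaries. Let `H` be a Hopf algebra over `K` of dimension `|G|` with an isomorphism of
algebras `Φ` from its Drinfeld double `D` to the twisted double `E` of `G`, `ω`, which maps the
Drinfeld element to `v = ∑_g e_g g` or to the inverse of `v`. Then the exponent of `H` divides the
dimension of `H`. (The conclusion is word for word the one of the frozen statement `S00715`.) -/
theorem result {K G H D E : Type} [Field K] [Group G] [Fintype G] [DecidableEq G]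
    (ω : G → G → G → Kˣ) (hω : IsNormalizedCocycle ω) (A B : Subgroup G)
    (hAB : ∀ g : G, ∃ a ∈ A, ∃ b ∈ B, g = a * b) (hA : IsTrivialOn ω A) (hB : IsTrivialOn ω B)
    [Ring H] [HopfAlgebra K H] (e : Module.Basis (Fin (Fintype.card G)) K H) (Sinv : H →ₗ[K] H)
    (h1 : Sinv ∘ₗ HopfAlgebra.antipode (R := K) (A := H) = LinearMap.id)
    (h2 : HopfAlgebra.antipode (R := K) (A := H) ∘ₗ Sinv = LinearMap.id)
    [Ring D] [Algebra K D] (i : H →ₐ[K] D) (j : (H →ₗ[K] K) →ₗ[K] D)
    (hD : IsDrinfeldDouble Sinv D i j) [Ring E] [Algebra K E] (b : Module.Basis (G × G) K E)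
    (hE : IsTwistedDouble ω E b) (Φ : D ≃ₐ[K] E)
    (hΦ : Φ (drinfeldElement Sinv i j e) = ∑ g, b (g, g) ∨
      Φ (drinfeldElement Sinv i j e) * ∑ g, b (g, g) = 1) :
    ∃ n : ℕ, 0 < n ∧
      (fun T : H →ₗ[K] H => LinearMap.mul' K H ∘ₗ
          TensorProduct.map LinearMap.id (Sinv ∘ₗ Sinv ∘ₗ T) ∘ₗ
          Coalgebra.comul (R := K) (A := H))^[n]
        (Algebra.linearMap K H ∘ₗ Coalgebra.counit (R := K) (A := H))
        = Algebra.linearMap K H ∘ₗ Coalgebra.counit (R := K) (A := H) ∧
      (∀ m : ℕ, 0 < m →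
        (fun T : H →ₗ[K] H => LinearMap.mul' K H ∘ₗ
            TensorProduct.map LinearMap.id (Sinv ∘ₗ Sinv ∘ₗ T) ∘ₗ
            Coalgebra.comul (R := K) (A := H))^[m]
          (Algebra.linearMap K H ∘ₗ Coalgebra.counit (R := K) (A := H))
          = Algebra.linearMap K H ∘ₗ Coalgebra.counit (R := K) (A := H) →
        n ≤ m) ∧
      n ∣ Module.finrank K H := by
  have hω' : Pool.Agent.W2helper5.KA2.IsCoc ω :=
    { coc := hω.coc, one₀ := hω.one₀, one₁ := hω.one₁, one₂ := hω.one₂ }
  have conv : ∀ A : Subgroup G, IsTrivialOn ω A → Pool.Agent.W2helper5.KA2.TrivialOn ω A := by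
    classical
    rintro A ⟨α, hα⟩
    refine ⟨fun a b => if h : a ∈ A ∧ b ∈ A then α ⟨a, h.1⟩ ⟨b, h.2⟩ else 1, ?_⟩
    intro a ha b hb c hc
    have h := hα ⟨a, ha⟩ ⟨b, hb⟩ ⟨c, hc⟩
    have e1 := A.mul_mem ha hb
    have e2 := A.mul_mem hb hc
    simp only [ha, hb, hc, e1, e2, and_self, dite_true]
    exact eq_div_iff_mul_eq'.1 h
  have key : ∀ g : G, orderOf g * orderOf (Pool.Agent.W2helper5.KA2.z ω g) ∣ Fintype.card G := by
    intro g
    have := Pool.Agent.W2helper35.KA.p_num Pool.Agent.W2helper65.KA2.CYC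
      Pool.Agent.W2helper79.KA2.CON Pool.Agent.W2helper71.KA2.IDX G Kˣ ω hω' A B hAB
      (conv A hA) (conv B hB) g
    rwa [Nat.card_eq_fintype_card] at this
  have hv : (∑ g, b (g, g)) ^ Fintype.card G = 1 :=
    Pool.Agent.W2helper52.KA2.DBL K G ω hω' E b { mul := hE.mul, one := hE.one } key
  have hu : (drinfeldElement Sinv i j e) ^ Fintype.card G = 1 := by
    apply Φ.injective
    rw [map_pow, map_one]
    rcases hΦ with h | h
    · rw [h, hv]
    · have hunit : IsUnit (∑ g, b (g, g)) := IsUnit.of_pow_eq_one hv Fintype.card_ne_zero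
      obtain ⟨w, hw⟩ := hunit
      rw [← hw] at h hv
      have h' : Φ (drinfeldElement Sinv i j e) = ((w⁻¹ : Eˣ) : E) := by
        calc Φ (drinfeldElement Sinv i j e)
            = Φ (drinfeldElement Sinv i j e) * (w : E) * ((w⁻¹ : Eˣ) : E) := by
              rw [mul_assoc, Units.mul_inv, mul_one]
          _ = ((w⁻¹ : Eˣ) : E) := by rw [h, one_mul]
      rw [h', ← Units.val_pow_eq_pow_val, inv_pow]
      have : w ^ Fintype.card G = 1 := by
        apply Units.ext
        rw [Units.val_pow_eq_pow_val, hv, Units.val_one]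
      rw [this, inv_one, Units.val_one]
  exact Pool.Agent.W2helper5.KA3.main3 Pool.Agent.W2helper85.KA3.ACO Pool.Agent.W2helper69.KA3.COM
    Pool.Agent.W2helper51.KA3.POW Pool.Agent.W2helper71.KA3.INJ Sinv h1 h2 i j
    { j_one := hD.j_one, j_mul := hD.j_mul, rel := hD.rel, bij := hD.bij } e Fintype.card_pos hu

end Pool.Agent.Results.MP_0d5e35_al.GroupTheoreticalHopf
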